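import Pool.Agent.H28.N6.Targets

/-!
# SV1: the local lemma when the determinant has a root in the field
-/

set_option autoImplicit false
open MeasureTheory Pool.Agent.H28.N6

namespace Pool.Agent.H73.N6D

section

variable {F : Type} [Field F]

theorem sv_qf_add {n : ℕ} (A B : Matrix (Fin n) (Fin n) F) (z : Fin n → F) :
    qf (A + B) z = qf A z + qf B z := by
  unfold qf
  rw [Matrix.add_mulVec, dotProduct_add]

theorem sv_qf_smul {n : ℕ} (a : F) (A : Matrix (Fin n) (Fin n) F) (z : Fin n → F) :
    qf (a • A) z = a * qf A z := by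
  unfold qf
  rw [Matrix.smul_mulVec, dotProduct_smul, smul_eq_mul]

theorem sv_polar {n : ℕ} (G : Matrix (Fin n) (Fin n) F) (hG : G.transpose = G)
    (u v : Fin n → F) : qf G (u + v) = qf G u + qf G v + 2 * dotProduct u (G.mulVec v) := by
  unfold qf
  have h1 : dotProduct v (G.mulVec u) = dotProduct u (G.mulVec v) := by
    rw [Matrix.dotProduct_mulVec, ← Matrix.mulVec_transpose, hG, dotProduct_comm]
  rw [Matrix.mulVec_add, add_dotProduct, dotProduct_add, dotProduct_add, h1]
  ring

theorem sv_dp_eval {n : ℕ} (A B : Matrix (Fin n) (Fin n) F) (t : F) :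
    (dp A B).eval t = (A + t • B).det := by
  unfold dp
  rw [← Polynomial.coe_evalRingHom, RingHom.map_det]
  congr 1
  ext i j
  simp only [RingHom.mapMatrix_apply, Matrix.map_apply, Matrix.add_apply, Matrix.smul_apply,
    smul_eq_mul, Polynomial.coe_evalRingHom, Polynomial.eval_add, Polynomial.eval_mul,
    Polynomial.eval_X, Polynomial.eval_C]

theorem sv_dp_shift {n : ℕ} (A B : Matrix (Fin n) (Fin n) F) (e : F) :
    dp (A + e • B) B = (dp A B).comp (Polynomial.X + Polynomial.C e) := by
  unfold dp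
  rw [← Polynomial.coe_compRingHom_apply, RingHom.map_det]
  congr 1
  refine Matrix.ext fun i j => ?_
  simp only [RingHom.mapMatrix_apply, Matrix.map_apply, Matrix.add_apply, Matrix.smul_apply,
    smul_eq_mul, Polynomial.coe_compRingHom_apply]
  rw [Polynomial.add_comp, Polynomial.mul_comp, Polynomial.C_comp, Polynomial.C_comp,
    Polynomial.X_comp, Polynomial.C_add, Polynomial.C_mul]
  ring

theorem sv_sep (p : Polynomial F) (hp : p.Separable) (t : F) (ht : p.eval t = 0) :
    p.derivative.eval t ≠ 0 := by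
  intro h0
  obtain ⟨a, b, hab⟩ := hp
  have h1 := congrArg (Polynomial.eval t) hab
  rw [Polynomial.eval_add, Polynomial.eval_mul, Polynomial.eval_mul, ht, h0, mul_zero,
    mul_zero, add_zero, Polynomial.eval_one] at h1
  exact zero_ne_one h1

theorem sv_comap (P : Submodule F (Fin 6 → F)) : ∃ W : Submodule F (Fin 7 → F),
    Module.finrank F W = Module.finrank F P + 1 ∧ ∀ z ∈ W, Fin.tail z ∈ P := by
  let f : (Fin 7 → F) →ₗ[F] (Fin 6 → F) := LinearMap.funLeft F F Fin.succ
  refine ⟨P.comap f, ?_, fun z hz => hz⟩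
  let E : (F × P) ≃ₗ[F] (P.comap f) :=
    { toFun := fun x => ⟨Fin.cons x.1 x.2.1, x.2.2⟩
      invFun := fun z => (z.1 0, ⟨f z.1, z.2⟩)
      map_add' := fun x y => by
        ext i
        refine Fin.cases ?_ (fun i => ?_) i
        · rfl
        · rfl
      map_smul' := fun c x => by
        ext i
        refine Fin.cases ?_ (fun i => ?_) i
        · rfl
        · rfl
      left_inv := fun x => rfl
      right_inv := fun z => by
        ext i
        refine Fin.cases ?_ (fun i => ?_) i
        · rfl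
        · rfl }
  rw [← E.finrank_eq, Module.finrank_prod, Module.finrank_self, add_comm]

theorem sv_iso {n k : ℕ} (G M : Matrix (Fin n) (Fin n) F) (hM : M.det ≠ 0)
    (W : Submodule F (Fin n → F)) (hW : Module.finrank F W = k)
    (h : ∀ z ∈ W, qf G (M.mulVec z) = 0) : IsoSp G k := by
  have hinj : Function.Injective (Matrix.toLin' M) := by
    rw [← LinearMap.ker_eq_bot, LinearMap.ker_eq_bot']
    intro z hz
    rw [Matrix.toLin'_apply] at hz
    by_contra hne
    exact hM (Matrix.exists_mulVec_eq_zero_iff.1 ⟨z, hne, hz⟩)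
  refine ⟨W.map (Matrix.toLin' M), ?_, ?_⟩
  · rw [← (Submodule.equivMapOfInjective _ hinj W).finrank_eq, hW]
  · rintro _ ⟨z, hz, rfl⟩
    rw [Matrix.toLin'_apply]
    exact h z hz

end

theorem pf_SV1 (hNF7 : T_NF7) (hMOV : T_MOV) (hLIF : T_LIF) (hQUA : T_QUA) (hSVA : T_SVA)
    (hINF : T_INF) (hKER : T_KER) : T_SV1 := by
  intro F _ _ _ h2 A B hA hB hdeg hsep ⟨e, he⟩ ⟨x, hx0, hxA, hxB⟩
  have hroot : ∀ t : F, (dp A B).eval t = 0 → (dp A B).derivative.eval t ≠ 0 :=
    sv_sep (dp A B) hsep
  have hBdet : B.det ≠ 0 := by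
    intro h0
    have h1 := Polynomial.coeff_det_X_add_C_card B A
    rw [h0, Fintype.card_fin, add_comm] at h1
    have h3 : dp A B ≠ 0 := by
      intro h4
      rw [h4, Polynomial.natDegree_zero] at hdeg
      omega
    have h5 : (dp A B).coeff 7 ≠ 0 := by
      have h6 := Polynomial.leadingCoeff_ne_zero.2 h3
      unfold Polynomial.leadingCoeff at h6
      rwa [hdeg] at h6
    exact h5 h1
  let R : Matrix (Fin 7) (Fin 7) F := A + e • B
  have hR : R.transpose = R := by
    show (A + e • B).transpose = A + e • B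
    rw [Matrix.transpose_add, Matrix.transpose_smul, hA, hB]
  have hr0 : (dp R B).eval 0 = 0 := by
    rw [sv_dp_shift, Polynomial.eval_comp]
    simpa using he
  have hr1 : (dp R B).derivative.eval 0 ≠ 0 := by
    rw [sv_dp_shift, Polynomial.derivative_comp]
    simpa using hroot e he
  obtain ⟨M, R6, S6, s, hM, hR6, hS6, hR6d, hs, hform⟩ := hNF7 F h2 R B hR hB hr0 hr1
  have hinv : ∀ v : Fin 7 → F, M.mulVec (M⁻¹.mulVec v) = v := by
    intro v
    rw [Matrix.mulVec_mulVec, Matrix.mul_nonsing_inv M (isUnit_iff_ne_zero.2 hM),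
      Matrix.one_mulVec]
  -- the common zero in the new coordinates
  obtain ⟨z, hz⟩ : ∃ z : Fin 7 → F, M.mulVec z = x := ⟨_, hinv x⟩
  have hz0 : z ≠ 0 := by
    intro h
    rw [h, Matrix.mulVec_zero] at hz
    exact hx0 hz.symm
  have hzR : qf R6 (Fin.tail z) = 0 := by
    rw [← (hform z).1, hz, sv_qf_add, sv_qf_smul, hxA, hxB, mul_zero, add_zero]
  have hzS : s * z 0 ^ 2 + qf S6 (Fin.tail z) = 0 := by
    rw [← (hform z).2, hz, hxB]
  -- a common zero off the branch locus
  obtain ⟨y, w, hw, hyR, hyS⟩ : ∃ (y : Fin 6 → F) (w : F), w ≠ 0 ∧ qf R6 y = 0 ∧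
      s * w ^ 2 + qf S6 y = 0 := by
    by_cases h0 : z 0 = 0
    · have hy0 : Fin.tail z ≠ 0 := by
        intro h
        apply hz0
        funext i
        refine Fin.cases ?_ (fun i => ?_) i
        · exact h0
        · exact congrFun h i
      have hyS' : qf S6 (Fin.tail z) = 0 := by
        rw [h0] at hzS
        simpa using hzS
      refine hMOV F h2 R6 S6 s hR6 hS6 hR6d hs (Fin.tail z) hy0 hzR hyS' ?_
      intro c hc
      -- polar forms
      have hpR : ∀ u : Fin 7 → F, dotProduct (M.mulVec u) (R.mulVec x) =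
          dotProduct (Fin.tail u) (R6.mulVec (Fin.tail z)) := by
        intro u
        have h3 := sv_polar R hR (M.mulVec u) (M.mulVec z)
        have h4 := sv_polar R6 hR6 (Fin.tail u) (Fin.tail z)
        have h5 : M.mulVec u + M.mulVec z = M.mulVec (u + z) := (Matrix.mulVec_add _ _ _).symm
        have h6 : Fin.tail u + Fin.tail z = Fin.tail (u + z) := rfl
        rw [h5, (hform _).1, (hform _).1, (hform _).1, hz] at h3
        rw [h6] at h4
        rw [h4] at h3
        exact (mul_left_cancel₀ h2 (add_left_cancel h3)).symm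
      have hpS : ∀ u : Fin 7 → F, dotProduct (M.mulVec u) (B.mulVec x) =
          dotProduct (Fin.tail u) (S6.mulVec (Fin.tail z)) := by
        intro u
        have h3 := sv_polar B hB (M.mulVec u) (M.mulVec z)
        have h4 := sv_polar S6 hS6 (Fin.tail u) (Fin.tail z)
        have h5 : M.mulVec u + M.mulVec z = M.mulVec (u + z) := (Matrix.mulVec_add _ _ _).symm
        have h6 : Fin.tail u + Fin.tail z = Fin.tail (u + z) := rfl
        rw [h5, (hform _).2, (hform _).2, (hform _).2, hz] at h3
        rw [h6] at h4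
        rw [h4, Pi.add_apply, h0] at h3
        refine (mul_left_cancel₀ h2 ?_).symm
        linear_combination h3
      have hz' : ∀ v : Fin 7 → F, (∀ u : Fin 7 → F, dotProduct (M.mulVec u) v = 0) → v = 0 := by
        intro v hv
        refine dotProduct_eq_zero v fun u => ?_
        have := hv (M⁻¹.mulVec u)
        rw [hinv] at this
        rw [dotProduct_comm]
        exact this
      have hker : B.mulVec x = c • R.mulVec x := by
        refine sub_eq_zero.1 (hz' _ fun u => ?_)
        rw [dotProduct_sub, dotProduct_smul, hpR, hpS, hc, dotProduct_smul, sub_self]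
      by_cases hc0 : c = 0
      · rw [hc0, zero_smul] at hker
        exact hBdet (Matrix.exists_mulVec_eq_zero_iff.1 ⟨x, hx0, hker⟩)
      · have hk : (A + (e - c⁻¹) • B).mulVec x = 0 := by
          have h7 : A + (e - c⁻¹) • B = R - c⁻¹ • B := by
            show A + (e - c⁻¹) • B = (A + e • B) - c⁻¹ • B
            rw [sub_smul]
            abel
          rw [h7, Matrix.sub_mulVec, Matrix.smul_mulVec, hker, smul_smul, inv_mul_cancel₀ hc0,
            one_smul, sub_self]
        have h8 := hKER F 7 A B (e - c⁻¹) x hA hB hx0 hk hxB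
        refine hroot (e - c⁻¹) ?_ h8
        rw [sv_dp_eval]
        exact Matrix.exists_mulVec_eq_zero_iff.1 ⟨x, hx0, hk⟩
    · exact ⟨Fin.tail z, z 0, h0, hzR, hzS⟩
  obtain ⟨R4, S4, hR4, hS4, hani, hlift⟩ := hLIF F h2 R6 S6 s w y hR6 hS6 hR6d hs hw hyR hyS
  by_cases hA4 : Ani R4
  · obtain ⟨a, b, hab, hiso⟩ := hQUA F h2 R4 S4 hR4 hS4
      ⟨1, 0, by rw [one_smul, zero_smul, add_zero]; exact hA4⟩
    obtain ⟨W, hW3, hW⟩ := hlift a b hiso
    have hG : IsoSp (a • R + b • B) 3 := by
      refine sv_iso _ M hM W hW3 fun u hu => ?_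
      rw [sv_qf_add, sv_qf_smul, sv_qf_smul, (hform u).1, (hform u).2]
      exact hW u hu
    by_cases ha : a = 0
    · have hb : b ≠ 0 := by
        rcases hab with h | h
        · exact absurd ha h
        · exact h
      refine hINF F h2 7 3 A B hA hB hBdet ?_
      obtain ⟨W', hW', hW''⟩ := hG
      refine ⟨W', hW', fun u hu => ?_⟩
      have h9 := hW'' u hu
      rw [ha, zero_smul, zero_add, sv_qf_smul] at h9
      exact (mul_eq_zero.1 h9).resolve_left hb
    · have hT : IsoSp (A + (e + a⁻¹ * b) • B) 3 := by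
        obtain ⟨W', hW', hW''⟩ := hG
        refine ⟨W', hW', fun u hu => ?_⟩
        have h9 := hW'' u hu
        have h10 : a • R + b • B = a • (A + (e + a⁻¹ * b) • B) := by
          show a • (A + e • B) + b • B = a • (A + (e + a⁻¹ * b) • B)
          have h12 : a * (e + a⁻¹ * b) = a * e + b := by
            rw [mul_add, ← mul_assoc, mul_inv_cancel₀ ha, one_mul]
          rw [smul_add a A ((e + a⁻¹ * b) • B), smul_smul, h12, add_smul, smul_add, smul_smul,
            add_assoc]
        rw [h10, sv_qf_smul] at h9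
        exact (mul_eq_zero.1 h9).resolve_left ha
      by_cases hd : (A + (e + a⁻¹ * b) • B).det = 0
      · have h11 : (dp A B).eval (e + a⁻¹ * b) = 0 := by rw [sv_dp_eval]; exact hd
        exact hSVA F h2 A B hA hB _ h11 (hroot _ h11) hT
      · exact ⟨_, hd, hT⟩
  · obtain ⟨P, hP2, hP⟩ := hani hA4
    obtain ⟨W, hW, hWt⟩ := sv_comap P
    rw [hP2] at hW
    have hT : IsoSp (A + e • B) 3 := by
      refine sv_iso _ M hM W hW fun u hu => ?_
      have := (hform u).1
      exact this.trans (hP _ (hWt u hu))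
    exact hSVA F h2 A B hA hB e he (hroot e he) hT

end Pool.Agent.H73.N6D
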